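import Pool.Agent.H54.Lich2

open Pool.Agent.H54.LichDef
open scoped ContDiff

namespace Pool.Agent.Results.MP_9e0eae_gt.NotMono

theorem result : ∃ (U : Set (Fin 4 → ℝ)) (G : Met 4), IsOpen U ∧ IsConnected U ∧
    (∀ i j, ContDiff ℝ ∞ (G · i j)) ∧ (∀ y, (G y).PosDef) ∧
    (∀ y ∈ U, ∀ T : Tens 3 4, IsSym T → 0 ≤ gInner G y (ricL G y T) T) ∧
    ∃ y ∈ U, ∃ S : Tens 2 4, IsSym S ∧ gInner G y (ricL G y S) S < 0 := by
  obtain ⟨ε, hε, h⟩ := Pool.Agent.H54.Lich.near _ Pool.Agent.H54.Lich.pos3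
  exact ⟨Metric.ball 0 ε, Pool.Agent.H54.Lich.GG Pool.Agent.H54.Lich.cc, Metric.isOpen_ball,
    (convex_ball _ _).isConnected (Metric.nonempty_ball.2 hε), Pool.Agent.H54.Lich.smooth_G _,
    Pool.Agent.H54.Lich.pos_G _, h, 0, Metric.mem_ball_self hε, Pool.Agent.H54.Lich.SS,
    Pool.Agent.H54.Lich.SS_sym, Pool.Agent.H54.Lich.two⟩

end Pool.Agent.Results.MP_9e0eae_gt.NotMono
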